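import Mathlib
import Pool.Agent.H.MP_f24352_gt.A
import Pool.Agent.Lib.helper24.Succ

set_option autoImplicit false

open Set Filter Topology
open Cardinal hiding univ
open Pool.Agent.Lib.helper24.Succ Pool.Agent.H.MP_f24352_gt

namespace Pool.Agent.H.MP_04f724_gt

lemma op {I : Type} (i : I) (c : ZMod 2) : IsOpen {x : I → ZMod 2 | x i = c} :=
  (isOpen_discrete {c}).preimage (continuous_apply (A := fun _ : I => ZMod 2) i)

lemma onto {I : Type} (H : AddSubgroup (I → ZMod 2)) (h1 : Dense (H : Set (I → ZMod 2)))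
    (h2 : ∀ S : Set H, S.Countable → IsCompact (closure S)) {S : Set I} (hS : S.Countable)
    (p : I → ZMod 2) : ∃ h : H, ∀ i ∈ S, h.1 i = p i := by
  classical
  haveI := hS.to_subtype
  have : ∀ F : Finset S, ∃ h : H, ∀ i ∈ F, h.1 i.1 = p i.1 := fun F => by
    obtain ⟨x, x1, x2⟩ := h1.inter_open_nonempty (⋂ i ∈ F, {x | x i.1 = p i.1})
      (isOpen_biInter_finset fun i _ => op i.1 _)
      ⟨p, by simp⟩
    exact ⟨⟨x, x2⟩, by simpa using x1⟩
  choose u hu using this
  obtain ⟨x, -, hx⟩ := (h2 _ (countable_range u)).exists_mapClusterPt (f := atTop) (u := u)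
    (tendsto_principal.2 (Eventually.of_forall fun n => subset_closure ⟨n, rfl⟩))
  refine ⟨x, fun i hi => ?_⟩
  have hc : IsClosed {y : H | y.1 i = p i} :=
    isClosed_eq ((continuous_apply i).comp continuous_subtype_val) continuous_const
  exact hc.mem_of_mapClusterPt hx ((eventually_ge_atTop {⟨i, hi⟩}).mono fun F hF =>
    hu F ⟨i, hi⟩ (hF (Finset.mem_singleton_self _)))

lemma two {t : UnitAddCircle} (h : t + t = 0) (h' : ‖t‖ < 1 / 4) : t = 0 := by
  obtain ⟨x, rfl⟩ := QuotientAddGroup.mk_surjective t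
  obtain ⟨z, hz⟩ := (AddCircle.coe_eq_zero_iff (1 : ℝ)).1 h
  rw [UnitAddCircle.norm_eq, abs_lt] at h'
  rw [zsmul_one] at hz
  have h1 : ((z - 2 * round x : ℤ) : ℝ) < (1 : ℤ) := by push_cast; linarith
  have h2 : ((-1 : ℤ) : ℝ) < (z - 2 * round x : ℤ) := by push_cast; linarith
  have h3 : z = 2 * round x := by have := Int.cast_lt.1 h1; have := Int.cast_lt.1 h2; omega
  rw [h3] at hz
  push_cast at hz
  exact (AddCircle.coe_eq_zero_iff (1 : ℝ)).2 ⟨round x, by rw [zsmul_one]; linarith⟩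

theorem main (H : AddSubgroup (W ℵ₀ → ZMod 2)) (h1 : Dense (H : Set (W ℵ₀ → ZMod 2)))
    (h2 : ∀ S : Set H, S.Countable → IsCompact (closure S)) :
    DiscreteTopology (H →ₜ+ UnitAddCircle) := by
  classical
  choose h hh using fun a : W ℵ₀ => onto H h1 h2
    (le_aleph0_iff_set_countable.1 (card_Iic le_rfl a)) (Pi.single a 1)
  have e0 : ∀ a c, c < a → (h a).1 c = 0 := fun a c hc => by
    rw [hh a c hc.le, Pi.single_eq_of_ne hc.ne]
  have hK : IsCompact (Subtype.val ⁻¹' closure (range fun a => (h a).1) : Set H) := by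
    rw [Subtype.isCompact_iff, image_preimage_eq_of_subset]
    · exact isClosed_closure.isCompact
    intro p hp
    by_cases h0 : p = 0
    · exact ⟨0, h0.symm⟩
    obtain ⟨c, hc⟩ := Function.ne_iff.1 h0
    have h3 : p ∈ closure ({x | x c = p c} ∩ range fun a => (h a).1) :=
      (op c (p c)).inter_closure ⟨rfl, hp⟩
    refine image_subset_range _ _ (closure_minimal ?_ ((h2 (h '' Iic c)
      ((le_aleph0_iff_set_countable.1 (card_Iic le_rfl c)).image h)).image
        continuous_subtype_val).isClosed h3)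
    rintro _ ⟨h4, a, rfl⟩
    exact ⟨_, subset_closure ⟨a, not_lt.1 fun h5 => hc (h4.symm.trans (e0 a c h5)), rfl⟩, rfl⟩
  have e2 : ∀ (χ : H →ₜ+ UnitAddCircle) x, ‖χ x‖ < 1 / 4 → χ x = 0 := fun χ x => two (by
    rw [← map_add, show x + x = 0 from Subtype.ext (funext fun i => CharTwo.add_self_eq_zero _),
      map_zero])
  refine discreteTopology_of_isOpen_singleton_zero ?_
  convert (ContinuousMap.isOpen_setOfPred_mapsTo hK (Metric.isOpen_ball (x := (0 : UnitAddCircle))
    (ε := 1 / 4))).preimage (ContinuousAddMonoidHom.isInducing_toContinuousMap H _).continuous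
  refine Subset.antisymm (singleton_subset_iff.2 fun x _ => Metric.mem_ball_self (by norm_num))
    fun χ hχ => ?_
  have e3 : ∀ a, χ (h a) = 0 := fun a =>
    e2 χ _ (mem_ball_zero_iff.1 (hχ (subset_closure ⟨a, rfl⟩)))
  obtain ⟨F, hF⟩ := box (x := (0 : H)) (U := {x | ‖χ x‖ < 1 / 4})
    ((isOpen_lt χ.continuous.norm continuous_const).mem_nhds (by simp))
  have e4 : ∀ (F : Finset (W ℵ₀)) (x : H), ∃ y, χ y = 0 ∧ ∀ i ∈ F, (x - y).1 i = 0 := fun F x => by
    induction F using Finset.induction_on_max with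
    | empty => exact ⟨0, map_zero _, by simp⟩
    | insert a s hs ih =>
      obtain ⟨y, y1, y2⟩ := ih
      refine ⟨y + ((x - y).1 a).val • h a, by rw [map_add, map_nsmul, y1, e3, smul_zero, add_zero],
        fun i hi => ?_⟩
      rw [← sub_sub]
      show (x - y).1 i - ((x - y).1 a).val • (h a).1 i = 0
      rcases Finset.mem_insert.1 hi with rfl | hi
      · simp [hh i i self_mem_Iic]
      · rw [y2 i hi, e0 a i (hs i hi), smul_zero, sub_zero]
  ext x
  obtain ⟨y, y1, y2⟩ := e4 F x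
  have := e2 χ _ (hF _ y2)
  rwa [map_sub, y1, sub_zero] at this

theorem nomet : ¬ FirstCountableTopology (W ℵ₀ → ZMod 2) := fun _ => by
  classical
  obtain ⟨U, hU⟩ := (𝓝 (0 : W ℵ₀ → ZMod 2)).exists_antitone_basis
  have : ∀ n, ∃ F : Finset (W ℵ₀), ∀ y, (∀ i ∈ F, y i = 0) → y ∈ U n := fun n => by
    have := hU.mem n
    rw [nhds_pi, mem_pi'] at this
    obtain ⟨F, t, ht, hF⟩ := this
    exact ⟨F, fun y hy => hF fun i hi => mem_of_eq_of_mem (hy i hi) (mem_of_mem_nhds (ht i))⟩
  choose F hF using this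
  obtain ⟨b, hb⟩ := bdd_countable le_rfl _ (countable_iUnion fun n => (F n).countable_toSet)
  obtain ⟨n, hn⟩ := hU.mem_iff.1 ((op b 0).mem_nhds rfl)
  simpa using hn (hF n (Pi.single b 1) fun i hi =>
    Pi.single_eq_of_ne (hb i (mem_iUnion.2 ⟨n, hi⟩)).ne _)

end Pool.Agent.H.MP_04f724_gt
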